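import Pool.Agent.Helper636_AG.AbD_Defs

/-!
# The abelian version of Part D, step D2: if the group is free then the graph is orientable
-/

set_option autoImplicit false

namespace Pool.Agent.Helper636_AG.AbD

open Cardinal PiNat
open Pool.Agent.H409_AG.PD (C Vt Sym IsOut GoodGraph)

/-- coordinate of the symbol `(false, x|m, y|m)` -/
noncomputable def es (x y : C) (m : ℕ) : Fr →+ ℤ :=
  Finsupp.applyAddHom (false, res x m, res y m)

theorem es_apply (x y : C) (m : ℕ) (w : Fr) : es x y m w = w (false, res x m, res y m) := rfl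

/-- the coordinate `(false, x|m, y|m)` of the `m`-th component -/
noncomputable def Es (x y : C) (m : ℕ) : Om →+ ℤ :=
  (es x y m).comp (Pi.evalAddMonoidHom _ m)

theorem Es_apply (x y : C) (m : ℕ) (g : Om) : Es x y m g = es x y m (g m) := rfl

theorem es_lt_true (x y y' : C) (m : ℕ) (t : List Bool) : es x y m (lt (true, y') t m) = 0 := by
  rcases lt_or_ge m t.length with h | h
  · rw [lt_of_lt _ _ h, map_zero]
  · rw [lt_of_le _ _ h, es_apply, Finsupp.single_apply, if_neg]
    intro h'
    exact absurd (Prod.ext_iff.1 h').1 (by simp)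

theorem es_lt_false (x y x' : C) (m : ℕ) (t : List Bool)
    (hne : ¬ (res x' m = res x m ∧ t = res y m)) : es x y m (lt (false, x') t m) = 0 := by
  rcases lt_or_ge m t.length with h | h
  · rw [lt_of_lt _ _ h, map_zero]
  · rw [lt_of_le _ _ h, es_apply, Finsupp.single_apply, if_neg]
    intro h'
    have h1 := (Prod.ext_iff.1 h').2
    exact hne ⟨(Prod.ext_iff.1 h1).1, (Prod.ext_iff.1 h1).2⟩

theorem es_lt_self (x y : C) (m : ℕ) : es x y m (lt (false, x) (res y m) m) = 1 := by
  rw [lt_of_le _ _ (by rw [res_length]), es_apply, Finsupp.single_apply, if_pos rfl]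

theorem es_zz_ne (x y x' y' : C) (m : ℕ) (hne : ¬ (res x' m = res x m ∧ res y' m = res y m))
    (k : ℕ) : ∀ n, m + 1 - n = k → es x y m (zz x' y' n m) = 0 := by
  induction k with
  | zero =>
    intro n hn
    rw [zz_of_lt _ _ (by omega), map_zero]
  | succ k ih =>
    intro n hn
    rw [zz_rec_apply, map_add, map_add, map_add, ih (n + 1) (by omega), es_lt_true,
      es_lt_false x y x' m _]
    · simp
    · rintro ⟨h1, h2⟩
      have h3 : n = m := by
        have := congrArg List.length h2
        rwa [res_length, res_length] at this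
      subst h3
      exact hne ⟨h1, h2⟩

theorem es_zz (x y : C) (m : ℕ) (k : ℕ) : ∀ n, n ≤ m → m - n = k →
    es x y m (zz x y n m) = (2 : ℤ) ^ k := by
  induction k with
  | zero =>
    intro n hn h
    have : n = m := by omega
    subst this
    rw [zz_rec_apply, map_add, map_add, map_add, zz_of_lt _ _ (Nat.lt_succ_self _), map_zero,
      es_lt_true, es_lt_self]
    simp
  | succ k ih =>
    intro n hn h
    rw [zz_rec_apply, map_add, map_add, map_add, ih (n + 1) (by omega) (by omega), es_lt_true,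
      es_lt_false x y x m _]
    · ring
    · rintro ⟨_, h2⟩
      have := congrArg List.length h2
      rw [res_length, res_length] at this
      omega

/-- for elements of `GS R F` without the edge `(x, y)` the coordinates are eventually zero -/
theorem Es_eventually (R : Set (C × C)) {F : Set Vt} {x y : C}
    (hxy : ¬ ((false, x) ∈ F ∧ (true, y) ∈ F)) {g : Om} (hg : g ∈ GS R F) :
    ∃ M, ∀ m, M ≤ m → Es x y m g = 0 := by
  induction hg using AddSubgroup.closure_induction with
  | mem g hg =>
    rcases hg with ⟨⟨i, x'⟩, t, _, rfl⟩ | ⟨x', y', n, hR, hx, hy, rfl⟩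
    · refine ⟨t.length + 1, fun m hm => ?_⟩
      rw [Es_apply]
      cases i
      · apply es_lt_false x y x' m t
        rintro ⟨_, h2⟩
        have := congrArg List.length h2
        rw [res_length] at this
        omega
      · exact es_lt_true _ _ _ _ _
    · have hne : x' ≠ x ∨ y' ≠ y := by
        by_contra hc
        push Not at hc
        rw [hc.1] at hx
        rw [hc.2] at hy
        exact hxy ⟨hx, hy⟩
      have : ∃ k, x' k ≠ x k ∨ y' k ≠ y k := by
        rcases hne with h | h
        · obtain ⟨k, hk⟩ := Function.ne_iff.1 h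
          exact ⟨k, Or.inl hk⟩
        · obtain ⟨k, hk⟩ := Function.ne_iff.1 h
          exact ⟨k, Or.inr hk⟩
      obtain ⟨k, hk⟩ := this
      refine ⟨k + 1, fun m hm => ?_⟩
      rw [Es_apply]
      refine es_zz_ne x y x' y' m ?_ _ n rfl
      rintro ⟨h1, h2⟩
      rcases hk with hk | hk
      · exact hk (res_eq_res.1 h1 (by omega))
      · exact hk (res_eq_res.1 h2 (by omega))
  | zero => exact ⟨0, fun m _ => map_zero _⟩
  | add a b _ _ iha ihb =>
    obtain ⟨M, h⟩ := iha
    obtain ⟨M', h'⟩ := ihb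
    refine ⟨max M M', fun m hm => ?_⟩
    rw [map_add, h m (le_of_max_le_left hm), h' m (le_of_max_le_right hm), zero_add]
  | neg a _ ih =>
    obtain ⟨M, h⟩ := ih
    refine ⟨M, fun m hm => ?_⟩
    rw [map_neg, h m hm, neg_zero]

theorem step_D2 (R : Set (C × C)) (hfree : Module.Free ℤ (GS R Set.univ)) :
    ∃ out, IsOut R Set.univ out := by
  classical
  set G := GS R Set.univ with hG
  let b := Module.Free.chooseBasis ℤ G
  set X := Module.Free.ChooseBasisIndex ℤ G with hX
  -- letters and z's
  have hlt : ∀ v t, lt v t ∈ G := fun v t =>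
    AddSubgroup.subset_closure (Or.inl ⟨v, t, Set.mem_univ _, rfl⟩)
  have hzz : ∀ x y, (x, y) ∈ R → ∀ n, zz x y n ∈ G := fun x y h n =>
    AddSubgroup.subset_closure (Or.inr ⟨x, y, n, h, Set.mem_univ _, Set.mem_univ _, rfl⟩)
  -- generators
  have hsupp : ∀ s : X, ∃ F : Finset Vt, ((b s : G) : Om) ∈ GS R F :=
    fun s => exists_finset R (b s).2
  choose supp hsupp using hsupp
  let Sv : Vt → Set X := fun v => {s | ∃ t, b.repr ⟨lt v t, hlt v t⟩ s ≠ 0}
  have hSv : ∀ v, (Sv v).Countable := by
    intro v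
    have : Sv v = ⋃ t : List Bool, ((b.repr ⟨lt v t, hlt v t⟩).support : Set X) := by
      ext s
      simp [Sv]
    rw [this]
    exact Set.countable_iUnion fun t => Finset.countable_toSet _
  refine ⟨fun v => ⋃ s ∈ Sv v, (supp s : Set Vt), fun v => (hSv v).biUnion fun s _ =>
    Finset.countable_toSet _, ?_⟩
  intro x y hR _ _
  by_contra hc
  push Not at hc
  obtain ⟨hc1, hc2⟩ := hc
  let Z : ℕ → G := fun n => ⟨zz x y n, hzz x y hR n⟩
  have hZ : ∀ n, Z n = Z (n + 1) + Z (n + 1) + (⟨lt (false, x) (res y n), hlt _ _⟩ +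
      ⟨lt (true, y) (res x n), hlt _ _⟩) := by
    intro n
    apply Subtype.ext
    exact zz_rec x y n
  have hdiv : ∀ s, s ∉ Sv (false, x) → s ∉ Sv (true, y) → b.repr (Z 0) s = 0 := by
    intro s h1 h2
    have h3 : ∀ n, b.repr (Z n) s = 2 * b.repr (Z (n + 1)) s := by
      intro n
      have h4 : b.repr ⟨lt (false, x) (res y n), hlt _ _⟩ s = 0 := by
        by_contra h
        exact h1 ⟨_, h⟩
      have h5 : b.repr ⟨lt (true, y) (res x n), hlt _ _⟩ s = 0 := by
        by_contra h
        exact h2 ⟨_, h⟩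
      rw [hZ n, map_add, map_add, map_add, Finsupp.add_apply, Finsupp.add_apply,
        Finsupp.add_apply, h4, h5]
      ring
    have h6 : ∀ n, b.repr (Z 0) s = 2 ^ n * b.repr (Z n) s := by
      intro n
      induction n with
      | zero => simp
      | succ n ih => rw [ih, h3 n, pow_succ]; ring
    by_contra hne
    have h7 : ∀ n, ((2 : ℤ) ^ n) ∣ b.repr (Z 0) s := fun n => ⟨_, h6 n⟩
    have h8 := Int.natAbs_dvd_natAbs.2 (h7 (b.repr (Z 0) s).natAbs)
    rw [Int.natAbs_pow] at h8
    have h9 := Nat.le_of_dvd (Int.natAbs_pos.2 hne) h8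
    exact absurd h9 (not_le.2 (Nat.lt_two_pow_self))
  have hev : ∀ s, b.repr (Z 0) s ≠ 0 →
      ∃ M, ∀ m, M ≤ m → Es x y m ((b s : G) : Om) = 0 := by
    intro s hs
    apply Es_eventually R _ (hsupp s)
    rintro ⟨h1, h2⟩
    by_cases h3 : s ∈ Sv (false, x)
    · exact hc1 (Set.mem_biUnion h3 h2)
    · by_cases h4 : s ∈ Sv (true, y)
      · exact hc2 (Set.mem_biUnion h4 h1)
      · exact hs (hdiv s h3 h4)
  choose! M hM using hev
  let m := ((b.repr (Z 0)).support).sup M
  have h0 : Z 0 = (b.repr (Z 0)).sum fun s k => k • b s := (b.linearCombination_repr (Z 0)).symm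
  have h1 : Es x y m (zz x y 0) = (b.repr (Z 0)).sum fun s k => k * Es x y m ((b s : G) : Om) := by
    have h2 : ((Es x y m).comp G.subtype) (Z 0) =
        ((Es x y m).comp G.subtype) ((b.repr (Z 0)).sum fun s k => k • b s) := by rw [← h0]
    rw [Finsupp.sum, map_sum] at h2
    rw [Finsupp.sum]
    refine h2.trans (Finset.sum_congr rfl fun s _ => ?_)
    rw [map_zsmul, smul_eq_mul]
    rfl
  rw [Es_apply, es_zz x y m m 0 (Nat.zero_le _) rfl, Finsupp.sum, Finset.sum_eq_zero] at h1
  · exact absurd h1 (pow_ne_zero _ two_ne_zero)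
  · intro s hs
    rw [hM s (Finsupp.mem_support_iff.1 hs) m (Finset.le_sup hs), mul_zero]

end Pool.Agent.Helper636_AG.AbD
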