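import Pool.Agent.Helper636_AG.AbD_Defs
import Pool.Agent.H409_AG.PartD3b

/-!
# The abelian version of Part D, step D3: the subgroup of an orientable set of vertices is free
-/

set_option autoImplicit false

namespace Pool.Agent.Helper636_AG.AbD

open Cardinal PiNat
open Pool.Agent.H409_AG.PD (C Vt Sym IsOut GoodGraph ed op ed_false ed_true Low exists_rank
  exists_threshold El Idx th BB GoodTh Sep exists_sep)

section

variable {W : Type 1} [LinearOrder W] (R : Set (C × C)) (S : Set Vt)
  (rk : Vt → W) (hh : Vt → C → ℕ)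

/-- the free abelian group on the basis -/
abbrev KK : Type := (BB R S rk hh) →₀ ℤ

open Classical in
/-- the generator with the index `i` -/
noncomputable def gg (i : Idx) : KK R S rk hh :=
  if h : i ∈ BB R S rk hh then Finsupp.single ⟨i, h⟩ 1 else 0

/-- value of the `z`'s -/
noncomputable def gz (x y : C) (n : ℕ) : KK R S rk hh := gg R S rk hh (Sum.inr (x, y, n))

/-- value of `z (n+1)` at the coordinate `m` -/
noncomputable def gz' (m : ℕ) (x y : C) (n : ℕ) : KK R S rk hh :=
  if n < m then gz R S rk hh x y (n + 1) else 0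

attribute [local instance 10000] WellFoundedLT.toWellFoundedRelation

open Classical in
/-- the value of the letter `(v, t)` in the free group, at the coordinate `m` -/
noncomputable def AA [WellFoundedLT W] (m : ℕ) (v : Vt) (t : List Bool) : KK R S rk hh :=
  if h : ∃ c, El R S rk hh v t c then
    if v.1 = false then
      gz R S rk hh v.2 h.choose t.length - (gz' R S rk hh m v.2 h.choose t.length +
        gz' R S rk hh m v.2 h.choose t.length) - AA m (op v h.choose) (res v.2 t.length)
    else
      gz R S rk hh h.choose v.2 t.length - (gz' R S rk hh m h.choose v.2 t.length +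
        gz' R S rk hh m h.choose v.2 t.length) - AA m (op v h.choose) (res v.2 t.length)
  else gg R S rk hh (Sum.inl (v, t))
termination_by rk v
decreasing_by
  · exact h.choose_spec.1.2.2
  · exact h.choose_spec.1.2.2

variable {R S rk hh}

variable [WellFoundedLT W]

theorem AA_not {m : ℕ} {v : Vt} {t : List Bool} (h : ¬ ∃ c, El R S rk hh v t c) :
    AA R S rk hh m v t = gg R S rk hh (Sum.inl (v, t)) := by
  rw [AA, dif_neg h]

theorem AA_false (hg : GoodTh R S rk hh) {m : ℕ} {x c : C} {t : List Bool}
    (hv : (false, x) ∈ S) (h : El R S rk hh (false, x) t c) :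
    AA R S rk hh m (false, x) t =
      gz R S rk hh x c t.length - (gz' R S rk hh m x c t.length + gz' R S rk hh m x c t.length) -
        AA R S rk hh m (true, c) (res x t.length) := by
  have hex : ∃ c, El R S rk hh (false, x) t c := ⟨c, h⟩
  have hc : hex.choose = c := El.unique hg hv hex.choose_spec h
  rw [AA, dif_pos hex, if_pos rfl, hc]
  rfl

theorem AA_true (hg : GoodTh R S rk hh) {m : ℕ} {y c : C} {t : List Bool}
    (hv : (true, y) ∈ S) (h : El R S rk hh (true, y) t c) :
    AA R S rk hh m (true, y) t =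
      gz R S rk hh c y t.length - (gz' R S rk hh m c y t.length + gz' R S rk hh m c y t.length) -
        AA R S rk hh m (false, c) (res y t.length) := by
  have hex : ∃ c, El R S rk hh (true, y) t c := ⟨c, h⟩
  have hc : hex.choose = c := El.unique hg hv hex.choose_spec h
  rw [AA, dif_pos hex, if_neg (by simp), hc]
  rfl

/-- the relation of an edge -/
theorem AA_edge (hinj : Function.Injective rk) (hg : GoodTh R S rk hh) {m n : ℕ} {x y : C}
    (hR : (x, y) ∈ R) (hx : (false, x) ∈ S) (hy : (true, y) ∈ S) (hn : th rk hh x y ≤ n) :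
    AA R S rk hh m (false, x) (res y n) + AA R S rk hh m (true, y) (res x n) =
      gz R S rk hh x y n - (gz' R S rk hh m x y n + gz' R S rk hh m x y n) := by
  have hne : rk (true, y) ≠ rk (false, x) := fun h => by
    have := hinj h
    simp at this
  rcases lt_or_gt_of_ne hne with h | h
  · have h1 : El R S rk hh (false, x) (res y n) y := by
      refine ⟨⟨(ed_false R x y).2 hR, hy, h⟩, ?_, ?_⟩
      · rw [th, if_pos h] at hn
        rw [res_length]
        exact hn
      · rw [res_length]
    rw [AA_false hg hx h1, res_length]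
    abel
  · have h1 : El R S rk hh (true, y) (res x n) x := by
      refine ⟨⟨(ed_true R y x).2 hR, hx, h⟩, ?_, ?_⟩
      · rw [th, if_neg (not_lt.2 h.le)] at hn
        rw [res_length]
        exact hn
      · rw [res_length]
    rw [AA_true hg hy h1, res_length]
    abel

/-! ### The homomorphism back -/

open Classical in
/-- images of the symbols -/
noncomputable def tsym (R : Set (C × C)) (S : Set Vt) (rk : Vt → W) (hh : Vt → C → ℕ) (m : ℕ)
    (S0 : Set Vt) (s : Sym) : KK R S rk hh :=
  if h : ∃ v, v ∈ S0 ∧ v.1 = s.1 ∧ res v.2 m = s.2.1 then AA R S rk hh m h.choose s.2.2 else 0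

/-- the homomorphism back, from the coordinate `m` -/
noncomputable def tt (R : Set (C × C)) (S : Set Vt) (rk : Vt → W) (hh : Vt → C → ℕ) (m : ℕ)
    (S0 : Set Vt) : Fr →ₗ[ℤ] KK R S rk hh := Finsupp.linearCombination ℤ (tsym R S rk hh m S0)

theorem tt_lt {m : ℕ} {S0 : Set Vt} (hS : Sep S0 m) {v : Vt} (hv : v ∈ S0) {t : List Bool}
    (ht : t.length ≤ m) : tt R S rk hh m S0 (lt v t m) = AA R S rk hh m v t := by
  have h : ∃ w, w ∈ S0 ∧ w.1 = v.1 ∧ res w.2 m = res v.2 m := ⟨v, hv, rfl, rfl⟩
  have hc : h.choose = v :=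
    hS _ h.choose_spec.1 v hv h.choose_spec.2.1 h.choose_spec.2.2
  rw [lt_of_le v t ht, tt, Finsupp.linearCombination_single, one_smul]
  show tsym R S rk hh m S0 (v.1, res v.2 m, t) = _
  rw [tsym, dif_pos h, hc]

theorem tt_zz (hinj : Function.Injective rk) (hg : GoodTh R S rk hh) {m : ℕ} {S0 : Set Vt}
    (hS : Sep S0 m) {x y : C} (hR : (x, y) ∈ R) (hx : (false, x) ∈ S) (hy : (true, y) ∈ S)
    (hx0 : (false, x) ∈ S0) (hy0 : (true, y) ∈ S0) (k : ℕ) :
    ∀ n, th rk hh x y ≤ n → n ≤ m → m - n = k →
      tt R S rk hh m S0 (zz x y n m) = gz R S rk hh x y n := by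
  induction k with
  | zero =>
    intro n hn hnm hk
    have hnm' : n = m := by omega
    rw [zz_rec_apply, map_add, map_add, map_add, zz_of_lt x y (by omega : m < n + 1), map_zero,
      tt_lt hS hx0 (by rw [res_length]; exact hnm), tt_lt hS hy0 (by rw [res_length]; exact hnm),
      AA_edge hinj hg hR hx hy hn, gz', if_neg (by omega)]
    simp
  | succ k ih =>
    intro n hn hnm hk
    rw [zz_rec_apply, map_add, map_add, map_add, ih (n + 1) (by omega) (by omega) (by omega),
      tt_lt hS hx0 (by rw [res_length]; exact hnm), tt_lt hS hy0 (by rw [res_length]; exact hnm),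
      AA_edge hinj hg hR hx hy hn, gz', if_pos (by omega)]
    abel

/-- the value of a generator -/
noncomputable def val : Idx → Om := Sum.elim (fun p => lt p.1 p.2) (fun q => zz q.1 q.2.1 q.2.2)

/-- the homomorphism from the free group -/
noncomputable def io (R : Set (C × C)) (S : Set Vt) (rk : Vt → W) (hh : Vt → C → ℕ) :
    KK R S rk hh →ₗ[ℤ] Om := Finsupp.linearCombination ℤ fun b => val b.1

omit [WellFoundedLT W] in
theorem io_single (b : BB R S rk hh) (k : ℤ) :
    io R S rk hh (Finsupp.single b k) = k • val b.1 := by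
  rw [io, Finsupp.linearCombination_single]

omit [WellFoundedLT W] in
theorem gg_of (b : BB R S rk hh) : gg R S rk hh b.1 = Finsupp.single b 1 := by
  rw [gg, dif_pos b.2]

theorem back (hinj : Function.Injective rk) (hg : GoodTh R S rk hh) (w : KK R S rk hh) :
    ∃ (F : Finset Vt) (M : ℕ), ∀ m, M ≤ m → ∀ S0 : Set Vt, (F : Set Vt) ⊆ S0 → Sep S0 m →
      tt R S rk hh m S0 (io R S rk hh w m) = w := by
  classical
  induction w using Finsupp.induction_linear with
  | zero =>
    refine ⟨∅, 0, fun m _ S0 _ _ => ?_⟩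
    rw [map_zero, Pi.zero_apply, map_zero]
  | add a b iha ihb =>
    obtain ⟨F, M, h⟩ := iha
    obtain ⟨F', M', h'⟩ := ihb
    refine ⟨F ∪ F', max M M', fun m hm S0 hF hS => ?_⟩
    rw [map_add, Pi.add_apply, map_add, h m (le_of_max_le_left hm) S0
      (fun v hv => hF (by simp only [Finset.coe_union]; exact Or.inl hv)) hS,
      h' m (le_of_max_le_right hm) S0
      (fun v hv => hF (by simp only [Finset.coe_union]; exact Or.inr hv)) hS]
  | single b k =>
    have key : ∃ (F : Finset Vt) (M : ℕ), ∀ m, M ≤ m → ∀ S0 : Set Vt, (F : Set Vt) ⊆ S0 →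
        Sep S0 m → tt R S rk hh m S0 (val b.1 m) = Finsupp.single b 1 := by
      obtain ⟨b, hb⟩ := b
      rcases b with ⟨v, t⟩ | ⟨x, y, n⟩
      · refine ⟨{v}, t.length, fun m hm S0 hF hS => ?_⟩
        show tt R S rk hh m S0 (lt v t m) = _
        rw [tt_lt hS (hF (by simp)) hm, AA_not hb.2, ← gg_of]
      · refine ⟨{(false, x), (true, y)}, n, fun m hm S0 hF hS => ?_⟩
        show tt R S rk hh m S0 (zz x y n m) = _
        rw [tt_zz hinj hg hS hb.1 hb.2.1 hb.2.2.1 (hF (by simp)) (hF (by simp)) (m - n) n
          hb.2.2.2 hm rfl, gz, ← gg_of]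
    obtain ⟨F, M, h⟩ := key
    refine ⟨F, M, fun m hm S0 hF hS => ?_⟩
    rw [io_single, Pi.smul_apply, map_smul, h m hm S0 hF hS, Finsupp.smul_single, smul_eq_mul,
      mul_one]

theorem io_injective (hinj : Function.Injective rk) (hg : GoodTh R S rk hh) :
    Function.Injective (io R S rk hh) := by
  rw [injective_iff_map_eq_zero]
  intro w hw
  obtain ⟨F, M, h⟩ := back hinj hg w
  obtain ⟨M', h'⟩ := exists_sep F
  have h1 := h (max M M') (le_max_left _ _) F subset_rfl (h' _ (le_max_right _ _))
  rw [hw, Pi.zero_apply, map_zero] at h1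
  exact h1.symm

/-! ### Generation -/

omit [WellFoundedLT W] in
theorem io_val (i : Idx) (hi : i ∈ BB R S rk hh) : val i ∈ LinearMap.range (io R S rk hh) :=
  ⟨Finsupp.single ⟨i, hi⟩ 1, by rw [io_single, one_smul]⟩

omit [WellFoundedLT W] in
theorem zz_high {x y : C} (hR : (x, y) ∈ R) (hx : (false, x) ∈ S) (hy : (true, y) ∈ S) {n : ℕ}
    (hn : th rk hh x y ≤ n) : zz x y n ∈ LinearMap.range (io R S rk hh) :=
  io_val (Sum.inr (x, y, n)) ⟨hR, hx, hy, hn⟩

theorem lt_mem_range (v : Vt) : v ∈ S → ∀ t, lt v t ∈ LinearMap.range (io R S rk hh) := by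
  induction hr : rk v using WellFoundedLT.induction generalizing v with
  | ind w ih =>
    intro hv t
    by_cases hel : ∃ c, El R S rk hh v t c
    · obtain ⟨c, hc⟩ := hel
      obtain ⟨i, x⟩ := v
      have hop : op (i, x) c ∈ S := hc.1.2.1
      have h1 : ∀ t, lt (op (i, x) c) t ∈ LinearMap.range (io R S rk hh) :=
        ih (rk (op (i, x) c)) (by rw [← hr]; exact hc.1.2.2) _ rfl hop
      cases i
      · have hR : (x, c) ∈ R := (ed_false R x c).1 hc.1.1
        have hth : th rk hh x c ≤ t.length := by
          have h4 : rk (true, c) < rk (false, x) := hc.1.2.2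
          rw [th, if_pos h4]
          exact hc.2.1
        have h2 := zz_rec x c t.length
        have h3 : lt (false, x) t = zz x c t.length - (zz x c (t.length + 1) +
            zz x c (t.length + 1)) - lt (true, c) (res x t.length) := by
          rw [h2, hc.2.2]
          abel
        rw [h3]
        have h5 := zz_high (rk := rk) (hh := hh) hR hv hop (n := t.length + 1) (by omega)
        exact sub_mem (sub_mem (zz_high hR hv hop hth) (add_mem h5 h5)) (h1 _)
      · have hR : (c, x) ∈ R := (ed_true R x c).1 hc.1.1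
        have hth : th rk hh c x ≤ t.length := by
          have h4 : rk (false, c) < rk (true, x) := hc.1.2.2
          rw [th, if_neg (not_lt.2 h4.le)]
          exact hc.2.1
        have h2 := zz_rec c x t.length
        have h3 : lt (true, x) t = zz c x t.length - (zz c x (t.length + 1) +
            zz c x (t.length + 1)) - lt (false, c) (res x t.length) := by
          rw [h2, hc.2.2]
          abel
        rw [h3]
        have h5 := zz_high (rk := rk) (hh := hh) hR hop hv (n := t.length + 1) (by omega)
        exact sub_mem (sub_mem (zz_high hR hop hv hth) (add_mem h5 h5)) (h1 _)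
    · exact io_val (Sum.inl (v, t)) ⟨hv, hel⟩

theorem zz_mem_range {x y : C} (hR : (x, y) ∈ R) (hx : (false, x) ∈ S) (hy : (true, y) ∈ S)
    (n : ℕ) : zz x y n ∈ LinearMap.range (io R S rk hh) := by
  have key : ∀ k n, th rk hh x y ≤ n + k → zz x y n ∈ LinearMap.range (io R S rk hh) := by
    intro k
    induction k with
    | zero => exact fun n hn => zz_high hR hx hy hn
    | succ k ih =>
      intro n hn
      rw [zz_rec]
      have h5 := ih (n + 1) (by omega)
      exact add_mem (add_mem h5 h5) (add_mem (lt_mem_range _ hx _) (lt_mem_range _ hy _))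
  exact key (th rk hh x y) n (by omega)

theorem mem_range_iff (g : Om) : g ∈ LinearMap.range (io R S rk hh) ↔ g ∈ GS R S := by
  constructor
  · rintro ⟨w, rfl⟩
    induction w using Finsupp.induction_linear with
    | zero => rw [map_zero]; exact zero_mem _
    | single b k =>
      rw [io_single]
      apply zsmul_mem
      apply AddSubgroup.subset_closure
      obtain ⟨b, hb⟩ := b
      rcases b with ⟨v, t⟩ | ⟨x, y, n⟩
      · exact Or.inl ⟨v, t, hb.1, rfl⟩
      · exact Or.inr ⟨x, y, n, hb.1, hb.2.1, hb.2.2.1, rfl⟩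
    | add a b iha ihb => rw [map_add]; exact add_mem iha ihb
  · have h : GS R S ≤ (LinearMap.range (io R S rk hh)).toAddSubgroup := by
      rw [GS, AddSubgroup.closure_le]
      rintro g (⟨v, t, hv, rfl⟩ | ⟨x, y, n, hR, hx, hy, rfl⟩)
      · exact lt_mem_range v hv t
      · exact zz_mem_range hR hx hy n
    exact fun hg => h hg

end

/-- D3: subgroups of orientable sets are free. -/
theorem step_D3 (R : Set (C × C)) (S : Set Vt) (hout : ∃ out, IsOut R S out) :
    Module.Free ℤ (GS R S) := by
  obtain ⟨out, h⟩ := hout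
  obtain ⟨rk, hinj, hlow⟩ := exists_rank R S out h
  have : ∀ v : Vt, ∃ f : C → ℕ, v ∈ S → ∀ c ∈ Low R S rk v, ∀ c' ∈ Low R S rk v, c ≠ c' →
      ∀ n, f c ≤ n → f c' ≤ n → res c n ≠ res c' n := by
    intro v
    by_cases hv : v ∈ S
    · obtain ⟨f, hf⟩ := exists_threshold _ (hlow v hv)
      exact ⟨f, fun _ => hf⟩
    · exact ⟨fun _ => 0, fun h => absurd h hv⟩
  choose hh hhh using this
  have hg : GoodTh R S rk hh := hhh
  have hmem : ∀ w, io R S rk hh w ∈ GS R S := fun w => (mem_range_iff _).1 ⟨w, rfl⟩
  let φ : KK R S rk hh →+ GS R S := (io R S rk hh).toAddMonoidHom.codRestrict (GS R S) hmem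
  have hbij : Function.Bijective φ := by
    constructor
    · intro a b hab
      exact io_injective hinj hg (congrArg Subtype.val hab)
    · rintro ⟨g, hgm⟩
      obtain ⟨w, hw⟩ := (mem_range_iff (rk := rk) (hh := hh) g).2 hgm
      exact ⟨w, Subtype.ext hw⟩
  exact Module.Free.of_equiv (AddEquiv.ofBijective φ hbij).toIntLinearEquiv

end Pool.Agent.Helper636_AG.AbD
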