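import Mathlib

/-!
# Subgroups of free abelian groups are free
-/

set_option autoImplicit false
set_option linter.unusedSectionVars false

namespace Pool.Agent.Helper636_AG.AbFree

open Finsupp

universe u v

section
variable {ι : Type u} [LinearOrder ι] [WellFoundedLT ι] (N : Submodule ℤ (ι →₀ ℤ))

/-- the possible leading coefficients at `i` -/
noncomputable def I (i : ι) : Submodule ℤ ℤ :=
  (N ⊓ Finsupp.supported ℤ ℤ (Set.Iic i)).map (Finsupp.lapply i)

/-- generator of the leading coefficients -/
noncomputable def d (i : ι) : ℤ := Submodule.IsPrincipal.generator (I N i)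

omit [WellFoundedLT ι] in
theorem exists_vec (i : ι) : ∃ x : ι →₀ ℤ, x ∈ N ∧ (∀ j, i < j → x j = 0) ∧ x i = d N i := by
  have h := Submodule.IsPrincipal.generator_mem (I N i)
  obtain ⟨x, hx, hxi⟩ := h
  refine ⟨x, hx.1, ?_, hxi⟩
  intro j hj
  by_contra hne
  have := (Finsupp.mem_supported ℤ x).1 hx.2 (Finsupp.mem_support_iff.2 hne)
  exact absurd this (not_le.2 hj)

/-- the vectors of the basis -/
noncomputable def vec (i : ι) : ι →₀ ℤ := (exists_vec N i).choose

theorem vec_mem (i : ι) : vec N i ∈ N := (exists_vec N i).choose_spec.1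
theorem vec_gt {i j : ι} (h : i < j) : vec N i j = 0 := (exists_vec N i).choose_spec.2.1 j h
theorem vec_self (i : ι) : vec N i i = d N i := (exists_vec N i).choose_spec.2.2

/-- the candidate for a basis -/
noncomputable def bas (i : {i : ι // d N i ≠ 0}) : N := ⟨vec N i, vec_mem N i⟩

theorem bas_li : LinearIndependent ℤ (bas N) := by
  classical
  rw [linearIndependent_iff']
  intro s g hs
  by_contra hcon
  push Not at hcon
  obtain ⟨i0, hi0, hgi0⟩ := hcon
  let t := s.filter fun i => g i ≠ 0
  have ht : t.Nonempty := ⟨i0, Finset.mem_filter.2 ⟨hi0, hgi0⟩⟩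
  set i := t.max' ht with hi
  have hit : i ∈ t := t.max'_mem ht
  have h1 : (∑ j ∈ s, g j • vec N j) i = 0 := by
    have : (∑ j ∈ s, g j • vec N j) = 0 := by
      have := congrArg Subtype.val hs
      simpa [bas] using this
    rw [this]; rfl
  rw [Finsupp.finsetSum_apply, Finset.sum_eq_single i] at h1
  · rw [Finsupp.smul_apply, vec_self, smul_eq_mul] at h1
    rcases mul_eq_zero.1 h1 with h2 | h2
    · exact (Finset.mem_filter.1 hit).2 h2
    · exact i.2 h2
  · intro j hj hji
    by_cases hg : g j = 0
    · rw [hg, zero_smul]; rfl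
    · have hjt : j ∈ t := Finset.mem_filter.2 ⟨hj, hg⟩
      have hlt : j < i := lt_of_le_of_ne (t.le_max' j hjt) hji
      rw [Finsupp.smul_apply, vec_gt N hlt, smul_zero]
  · intro h
    exact absurd (Finset.mem_filter.1 hit).1 h

theorem mem_span_aux (j : ι) : ∀ x ∈ N, (∀ k, j < k → x k = 0) →
    x ∈ Submodule.span ℤ (Set.range fun i : {i : ι // d N i ≠ 0} => vec N i) := by
  induction j using WellFoundedLT.induction with
  | ind j ih =>
    -- vectors which vanish at `j` and after
    have key : ∀ y ∈ N, (∀ k, j ≤ k → y k = 0) →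
        y ∈ Submodule.span ℤ (Set.range fun i : {i : ι // d N i ≠ 0} => vec N i) := by
      intro y hy hk
      by_cases h0 : y = 0
      · rw [h0]; exact zero_mem _
      · have hne : y.support.Nonempty := Finsupp.support_nonempty_iff.2 h0
        have hm := y.support.max'_mem hne
        refine ih (y.support.max' hne) ?_ y hy ?_
        · by_contra hc
          exact (Finsupp.mem_support_iff.1 hm) (hk _ (not_lt.1 hc))
        · intro k hk'
          by_contra hne'
          exact absurd (y.support.le_max' k (Finsupp.mem_support_iff.2 hne')) (not_le.2 hk')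
    intro x hx hk
    have hxI : x j ∈ I N j := by
      refine ⟨x, ⟨hx, ?_⟩, rfl⟩
      refine (Finsupp.mem_supported ℤ x).2 ?_
      intro k hk'
      by_contra hc
      exact (Finsupp.mem_support_iff.1 hk') (hk k (not_le.1 hc))
    obtain ⟨c, hc⟩ := (Submodule.IsPrincipal.mem_iff_eq_smul_generator (I N j)).1 hxI
    have hc' : x j = c * d N j := hc
    by_cases hd : d N j = 0
    · apply key x hx
      intro k hk'
      rcases hk'.lt_or_eq with h | h
      · exact hk k h
      · rw [← h, hc', hd, mul_zero]
    · have h1 : x - c • vec N j ∈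
          Submodule.span ℤ (Set.range fun i : {i : ι // d N i ≠ 0} => vec N i) := by
        apply key _ (sub_mem hx (N.smul_mem c (vec_mem N j)))
        intro k hk'
        rw [Finsupp.sub_apply, Finsupp.smul_apply]
        rcases hk'.lt_or_eq with h | h
        · rw [hk k h, vec_gt N h, smul_zero, sub_zero]
        · rw [← h, vec_self, hc', smul_eq_mul, sub_self]
      have h2 : x = (x - c • vec N j) + c • vec N j := by abel
      rw [h2]
      exact add_mem h1 (Submodule.smul_mem _ _ (Submodule.subset_span ⟨⟨j, hd⟩, rfl⟩))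

theorem bas_span : ⊤ ≤ Submodule.span ℤ (Set.range (bas N)) := by
  classical
  rintro ⟨x, hx⟩ _
  have h1 : x ∈ Submodule.span ℤ (Set.range fun i : {i : ι // d N i ≠ 0} => vec N i) := by
    by_cases h0 : x = 0
    · rw [h0]; exact zero_mem _
    · have hne : x.support.Nonempty := Finsupp.support_nonempty_iff.2 h0
      refine mem_span_aux N (x.support.max' hne) x hx ?_
      intro k hk'
      by_contra hne'
      exact absurd (x.support.le_max' k (Finsupp.mem_support_iff.2 hne')) (not_le.2 hk')
  have h2 : (Set.range fun i : {i : ι // d N i ≠ 0} => vec N i) =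
      N.subtype '' Set.range (bas N) := by
    rw [← Set.range_comp]; rfl
  rw [h2, Submodule.span_image] at h1
  obtain ⟨y, hy, hyx⟩ := h1
  have : y = ⟨x, hx⟩ := Subtype.ext hyx
  rwa [← this]

end

theorem free_submodule {ι : Type u} (N : Submodule ℤ (ι →₀ ℤ)) : Module.Free ℤ N := by
  obtain ⟨hlo, hwf⟩ := exists_wellFoundedLT ι
  exact Module.Free.of_basis (Module.Basis.mk (bas_li N) (bas_span N))

/-- Subgroups of free abelian groups are free. -/
theorem free_addSubgroup {X : Type v} [AddCommGroup X] (hX : Module.Free ℤ X)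
    (H : AddSubgroup X) : Module.Free ℤ H := by
  let b := Module.Free.chooseBasis ℤ X
  let φ : X →ₗ[ℤ] (Module.Free.ChooseBasisIndex ℤ X →₀ ℤ) := b.repr.toLinearMap
  have hφ : Function.Injective φ := b.repr.injective
  let N := (AddSubgroup.toIntSubmodule H).map φ
  have h1 : Module.Free ℤ N := free_submodule N
  exact Module.Free.of_equiv (Submodule.equivMapOfInjective φ hφ (AddSubgroup.toIntSubmodule H)).symm

end Pool.Agent.Helper636_AG.AbFree
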