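import Pool.Agent.Helper636_AG.AbD1
import Pool.Agent.Helper636_AG.AbD2
import Pool.Agent.Helper636_AG.AbD3
import Pool.Agent.Helper636_AG.AbFree
import Pool.Agent.H409_AG.PartD0
import Pool.Agent.H409_AG.PartD_Asm

/-!
# The abelian version of Part D, assembly
-/

set_option autoImplicit false

namespace Pool.Agent.Helper636_AG.AbD

open Cardinal PiNat
open Pool.Agent.H409_AG
open Pool.Agent.H409_AG.PD (C Vt Sym IsOut GoodGraph exists_aleph_of_lt step_D0)
open Pool.Agent.Helper636_AG.Ab Pool.Agent.Helper636_AG.AbFree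

/-- If there is an incompact closed graph then some abelian group with underlying set `ℝ` and a
Borel graph is `ℵ_ω`-free but not free. -/
theorem abelian_group_of_incompact (h : Incompact) : ∃ G : AddCommGroup ℝ,
    MeasurableSet (graph G) ∧ KappaFree (ℵ_ Ordinal.omega0) G ∧
      ¬ Module.Free ℤ (Carrier G) := by
  obtain ⟨R, hR⟩ := step_D0 h
  obtain ⟨hcomp, hout, hno⟩ := hR
  obtain ⟨G, ⟨E⟩, hG⟩ := step_D1 R hcomp
  refine ⟨G, hG, fun H hH => ?_, fun hfree => ?_⟩
  · let f : Carrier G →+ Om := (GS R Set.univ).subtype.comp E.toAddMonoidHom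
    have hf : Function.Injective f := Subtype.val_injective.comp E.injective
    let H' : AddSubgroup Om := H.map f
    let EH : H ≃+ H' := H.equivMapOfInjective f hf
    have hcard : #H' = #H := (Cardinal.mk_congr EH.toEquiv).symm
    obtain ⟨n, hn⟩ : ∃ n : ℕ, #H' ≤ ℵ_ n := by
      rw [hcard]
      exact exists_aleph_of_lt hH
    have hle : H' ≤ GS R Set.univ := by
      rintro _ ⟨x, _, rfl⟩
      exact (E x).2
    obtain ⟨S, hS, hHS⟩ := step_D4 R n H' hle hn
    have h3 := step_D3 R S (hout n S hS)
    have h4 : Module.Free ℤ (H'.addSubgroupOf (GS R S)) := free_addSubgroup h3 _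
    have E2 : H'.addSubgroupOf (GS R S) ≃+ H' := AddSubgroup.addSubgroupOfEquivOfLe hHS
    exact Module.Free.of_equiv (E2.trans EH.symm).toIntLinearEquiv
  · apply hno
    apply step_D2
    exact Module.Free.of_equiv E.toIntLinearEquiv

end Pool.Agent.Helper636_AG.AbD
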