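import Pool.Agent.Helper636_AG.AbD_Defs
import Pool.Agent.H409_AG.PartD1

/-!
# The abelian version of Part D, step D1: a group with underlying set `ℝ` and a Borel graph
-/

set_option autoImplicit false

namespace Pool.Agent.Helper636_AG.AbD

open Cardinal PiNat Topology
open Pool.Agent.H409_AG.PD (C Vt Sym IsOut GoodGraph sigmaCompact_prod sigmaCompact_union res_lc
  mk_C)
open Pool.Agent.Helper636_AG.Ab

section

variable {Γ : Type} [TopologicalSpace Γ] [AddCommGroup Γ] [IsTopologicalAddGroup Γ]

/-- sums of `n` elements of `T` -/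
def sums (T : Set Γ) : ℕ → Set Γ
  | 0 => {0}
  | n + 1 => (fun p : Γ × Γ => p.1 + p.2) '' (sums T n ×ˢ T)

theorem sums_sigmaCompact {T : Set Γ} (hT : IsSigmaCompact T) (n : ℕ) :
    IsSigmaCompact (sums T n) := by
  induction n with
  | zero => exact isCompact_singleton.isSigmaCompact
  | succ n ih => exact (sigmaCompact_prod ih hT).image continuous_add

omit [TopologicalSpace Γ] [IsTopologicalAddGroup Γ] in
theorem sums_add {T : Set Γ} {n m : ℕ} {a b : Γ} (ha : a ∈ sums T n) (hb : b ∈ sums T m) :
    a + b ∈ sums T (n + m) := by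
  induction m generalizing b with
  | zero =>
    have : b = 0 := hb
    subst this
    simpa using ha
  | succ m ih =>
    obtain ⟨⟨c, d⟩, ⟨hc, hd⟩, rfl⟩ := hb
    exact ⟨(a + c, d), ⟨ih hc, hd⟩, by simp only; abel⟩

omit [TopologicalSpace Γ] [IsTopologicalAddGroup Γ] in
theorem sums_one {T : Set Γ} {a : Γ} (ha : a ∈ T) : a ∈ sums T 1 :=
  ⟨(0, a), ⟨rfl, ha⟩, zero_add a⟩

omit [TopologicalSpace Γ] [IsTopologicalAddGroup Γ] in
theorem sums_neg {T : Set Γ} (hT : ∀ a ∈ T, -a ∈ T) {n : ℕ} {a : Γ} (ha : a ∈ sums T n) :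
    -a ∈ sums T n := by
  induction n generalizing a with
  | zero =>
    have : a = 0 := ha
    rw [this, neg_zero]
    rfl
  | succ n ih =>
    obtain ⟨⟨c, d⟩, ⟨hc, hd⟩, rfl⟩ := ha
    exact ⟨(-c, -d), ⟨ih hc, hT d hd⟩, by simp only; abel⟩

theorem closure_sigmaCompact {T : Set Γ} (hT : IsSigmaCompact T) :
    IsSigmaCompact (AddSubgroup.closure T : Set Γ) := by
  let T' : Set Γ := T ∪ (fun a => -a) '' T
  have hT' : IsSigmaCompact T' := sigmaCompact_union hT (hT.image continuous_neg)
  have hinv : ∀ a ∈ T', -a ∈ T' := by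
    rintro a (ha | ⟨b, hb, rfl⟩)
    · exact Or.inr ⟨a, ha, rfl⟩
    · left
      simpa using hb
  have : (AddSubgroup.closure T : Set Γ) = ⋃ n, sums T' n := by
    apply Set.Subset.antisymm
    · intro a ha
      induction ha using AddSubgroup.closure_induction with
      | mem a ha => exact Set.mem_iUnion.2 ⟨1, sums_one (Or.inl ha)⟩
      | zero => exact Set.mem_iUnion.2 ⟨0, rfl⟩
      | add a b _ _ iha ihb =>
        obtain ⟨n, hn⟩ := Set.mem_iUnion.1 iha
        obtain ⟨m, hm⟩ := Set.mem_iUnion.1 ihb
        exact Set.mem_iUnion.2 ⟨n + m, sums_add hn hm⟩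
      | neg a _ ih =>
        obtain ⟨n, hn⟩ := Set.mem_iUnion.1 ih
        exact Set.mem_iUnion.2 ⟨n, sums_neg hinv hn⟩
    · refine Set.iUnion_subset fun n => ?_
      induction n with
      | zero =>
        intro a ha
        have : a = 0 := ha
        rw [this]
        exact zero_mem _
      | succ n ih =>
        rintro _ ⟨⟨c, d⟩, ⟨hc, hd⟩, rfl⟩
        refine add_mem (ih hc) ?_
        rcases hd with hd | ⟨b, hb, rfl⟩
        · exact AddSubgroup.subset_closure hd
        · exact neg_mem (AddSubgroup.subset_closure hb)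
  rw [this]
  exact isSigmaCompact_iUnion _ fun n => sums_sigmaCompact hT' n

end

/-! ### The topology of the group `Om` -/

local instance instTop : TopologicalSpace Fr := ⊥

local instance instDisc : DiscreteTopology Fr := ⟨rfl⟩

local instance instMeas : MeasurableSpace Fr := borel _

local instance instBor : BorelSpace Fr := ⟨rfl⟩

theorem lt_lc (i : Bool) (t : List Bool) (m : ℕ) :
    IsLocallyConstant fun x : C => lt (i, x) t m :=
  (res_lc m).comp fun l => if t.length ≤ m then Finsupp.single (i, l, t) (1 : ℤ) else 0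

theorem lt_continuous (i : Bool) (t : List Bool) : Continuous fun x : C => lt (i, x) t :=
  continuous_pi fun m => (lt_lc i t m).continuous

theorem zaux_lc (m k : ℕ) : IsLocallyConstant fun p : C × C => zaux p.1 p.2 m k := by
  induction k with
  | zero => exact IsLocallyConstant.const 0
  | succ k ih =>
    have h1 : IsLocallyConstant fun p : C × C => res p.1 m :=
      (res_lc m).comp_continuous continuous_fst
    have h2 : IsLocallyConstant fun p : C × C => res p.2 m :=
      (res_lc m).comp_continuous continuous_snd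
    have h3 : IsLocallyConstant fun p : C × C => res p.1 (m - k) :=
      (res_lc (m - k)).comp_continuous continuous_fst
    have h4 : IsLocallyConstant fun p : C × C => res p.2 (m - k) :=
      (res_lc (m - k)).comp_continuous continuous_snd
    have h5 : IsLocallyConstant fun p : C × C => lt (false, p.1) (res p.2 (m - k)) m :=
      h1.comp₂ h4 fun l t => if t.length ≤ m then Finsupp.single (false, l, t) (1 : ℤ) else 0
    have h6 : IsLocallyConstant fun p : C × C => lt (true, p.2) (res p.1 (m - k)) m :=
      h2.comp₂ h3 fun l t => if t.length ≤ m then Finsupp.single (true, l, t) (1 : ℤ) else 0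
    exact ih.comp₂ (h5.comp₂ h6 fun a b => a + b) fun a b => a + a + b

theorem zz_continuous (n : ℕ) : Continuous fun p : C × C => zz p.1 p.2 n :=
  continuous_pi fun m => (zaux_lc m (m + 1 - n)).continuous

theorem gens_sigmaCompact {R : Set (C × C)} (hR : IsCompact R) :
    IsSigmaCompact (gens R Set.univ) := by
  have h1 : gens R Set.univ = (⋃ p : Bool × List Bool, (fun x : C => lt (p.1, x) p.2) '' Set.univ)
      ∪ ⋃ n : ℕ, (fun p : C × C => zz p.1 p.2 n) '' R := by
    ext g
    constructor
    · rintro (⟨⟨i, x⟩, t, _, rfl⟩ | ⟨x, y, n, h, _, _, rfl⟩)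
      · exact Or.inl (Set.mem_iUnion.2 ⟨(i, t), x, trivial, rfl⟩)
      · exact Or.inr (Set.mem_iUnion.2 ⟨n, (x, y), h, rfl⟩)
    · rintro (h | h)
      · obtain ⟨⟨i, t⟩, x, _, rfl⟩ := Set.mem_iUnion.1 h
        exact Or.inl ⟨(i, x), t, trivial, rfl⟩
      · obtain ⟨n, ⟨x, y⟩, hxy, rfl⟩ := Set.mem_iUnion.1 h
        exact Or.inr ⟨x, y, n, hxy, trivial, trivial, rfl⟩
  rw [h1]
  refine sigmaCompact_union ?_ ?_
  · exact isSigmaCompact_iUnion _ fun p =>
      (isCompact_univ.image (lt_continuous p.1 p.2)).isSigmaCompact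
  · exact isSigmaCompact_iUnion _ fun n => (hR.image (zz_continuous n)).isSigmaCompact

theorem GS_measurable {R : Set (C × C)} (hR : IsCompact R) :
    MeasurableSet (GS R Set.univ : Set Om) := by
  obtain ⟨K, hK, h⟩ := closure_sigmaCompact (gens_sigmaCompact hR)
  rw [GS, ← h]
  exact MeasurableSet.iUnion fun n => (hK n).measurableSet

theorem not_countable_GS (R : Set (C × C)) : ¬ Countable (GS R Set.univ) := by
  intro h
  let f : C → GS R Set.univ := fun x => ⟨lt (false, x) [],
    AddSubgroup.subset_closure (Or.inl ⟨(false, x), [], trivial, rfl⟩)⟩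
  have hf : Function.Injective f := by
    intro x y hxy
    have h1 : lt (false, x) [] = lt (false, y) [] := Subtype.ext_iff.1 hxy
    apply PiNat.res_injective
    funext m
    have h2 := congrFun h1 m
    rw [lt_of_le _ _ (Nat.zero_le _), lt_of_le _ _ (Nat.zero_le _)] at h2
    have h3 := Finsupp.single_left_injective (one_ne_zero) h2
    exact (Prod.ext_iff.1 (Prod.ext_iff.1 h3).2).1
  have h1 : Countable C := hf.countable
  have h2 : #C ≤ ℵ₀ := mk_le_aleph0
  rw [mk_C] at h2
  exact absurd h2 (not_le.2 aleph0_lt_continuum)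

theorem step_D1 (R : Set (C × C)) (hR : IsCompact R) :
    ∃ G : AddCommGroup ℝ, Nonempty (Carrier G ≃+ GS R Set.univ) ∧ MeasurableSet (graph G) := by
  have hmeas := GS_measurable hR
  have : StandardBorelSpace (GS R Set.univ) := hmeas.standardBorel
  have hun : ¬ Countable ℝ := by
    rw [not_countable_iff]
    infer_instance
  let e : ℝ ≃ᵐ GS R Set.univ := PolishSpace.measurableEquivOfNotCountable hun (not_countable_GS R)
  refine ⟨e.toEquiv.addCommGroup, ⟨⟨e.toEquiv, ?_⟩⟩, ?_⟩
  · intro a b
    have h2 : (a + b : Carrier e.toEquiv.addCommGroup) = e.symm (e a + e b) := rfl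
    rw [h2]
    exact e.apply_symm_apply _
  · have h1 : graph (e.toEquiv.addCommGroup) =
        (fun p : ℝ × ℝ × ℝ => (((e p.1 : GS R Set.univ) : Om) + (e p.2.1 : GS R Set.univ),
          ((e p.2.2 : GS R Set.univ) : Om))) ⁻¹' {q : Om × Om | q.1 = q.2} := by
      ext p
      have h2 : (e.toEquiv.addCommGroup).add p.1 p.2.1 = e.symm (e p.1 + e p.2.1) := rfl
      simp only [graph, Set.mem_ofPred_eq, Set.mem_preimage]
      rw [h2]
      constructor
      · intro h
        rw [← h, MeasurableEquiv.apply_symm_apply]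
        rfl
      · intro h
        have h3 : e p.1 + e p.2.1 = e p.2.2 := Subtype.ext h
        rw [h3, MeasurableEquiv.symm_apply_apply]
    rw [h1]
    have hv : Measurable fun r : ℝ => ((e r : GS R Set.univ) : Om) :=
      measurable_subtype_coe.comp e.measurable
    have h4 : Measurable fun p : ℝ × ℝ × ℝ =>
        (((e p.1 : GS R Set.univ) : Om) + (e p.2.1 : GS R Set.univ),
          ((e p.2.2 : GS R Set.univ) : Om)) := by
      refine Measurable.prodMk ?_ (hv.comp (measurable_snd.comp measurable_snd))
      exact (hv.comp measurable_fst).add (hv.comp (measurable_fst.comp measurable_snd))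
    exact h4 (isClosed_diagonal.measurableSet)

end Pool.Agent.Helper636_AG.AbD
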