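import Mathlib

/-!
# Abelian groups with underlying set `ℝ`
-/

set_option autoImplicit false

namespace Pool.Agent.Helper636_AG.Ab

open Cardinal

/-- The group `G` on the set of the real numbers, as a type which carries this group operation
(and not the usual addition). -/
def Carrier (_ : AddCommGroup ℝ) : Type := ℝ

/-- The operation on `Carrier G` is the one of `G`. -/
instance instCarrier (G : AddCommGroup ℝ) : AddCommGroup (Carrier G) := G

/-- The graph of the operation of `G`. -/
def graph (G : AddCommGroup ℝ) : Set (ℝ × ℝ × ℝ) := {p | G.add p.1 p.2.1 = p.2.2}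

/-- `S` is an `F_σ` set, a countable union of closed sets. -/
def IsFSigma (S : Set (ℝ × ℝ × ℝ)) : Prop :=
  ∃ F : ℕ → Set (ℝ × ℝ × ℝ), (∀ n, IsClosed (F n)) ∧ S = ⋃ n, F n

/-- Every subgroup of `G` of cardinality less than `κ` is free. -/
def KappaFree (κ : Cardinal.{0}) (G : AddCommGroup ℝ) : Prop :=
  ∀ H : AddSubgroup (Carrier G), #H < κ → Module.Free ℤ H

end Pool.Agent.Helper636_AG.Ab
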