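import Mathlib
import Pool.Agent.H409_AG.PartD_Defs
import Pool.Agent.Helper636_AG.AbDefs

/-!
# The abelian version of Part D, definitions

`Om` is the countable power of the free abelian group on the symbols. The letter `lt v t` is an
element of `Om`; the elements `zz x y n` satisfy
`zz x y n = 2 zz x y (n+1) + lt (false, x) (y|n) + lt (true, y) (x|n)`.
`GS R S` is the subgroup generated by the letters of the vertices in `S` and all `zz x y n` for
`(x, y) ∈ R` with both ends in `S`.
-/

set_option autoImplicit false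

namespace Pool.Agent.Helper636_AG.AbD

open Cardinal PiNat
open Pool.Agent.H409_AG.PD (C Vt Sym IsOut GoodGraph)

/-- The free abelian group on the symbols. -/
abbrev Fr : Type := Sym →₀ ℤ

/-- The countable product. -/
abbrev Om : Type := ℕ → Fr

/-- The letter of the vertex `v` with the index `t`. -/
noncomputable def lt (v : Vt) (t : List Bool) : Om :=
  fun m => if t.length ≤ m then Finsupp.single (v.1, res v.2 m, t) 1 else 0

/-- auxiliary recursion -/
noncomputable def zaux (x y : C) (m : ℕ) : ℕ → Fr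
  | 0 => 0
  | k + 1 => zaux x y m k + zaux x y m k +
      (lt (false, x) (res y (m - k)) m + lt (true, y) (res x (m - k)) m)

/-- The element attached to an edge. -/
noncomputable def zz (x y : C) (n : ℕ) : Om := fun m => zaux x y m (m + 1 - n)

theorem zz_of_lt (x y : C) {n m : ℕ} (h : m < n) : zz x y n m = 0 := by
  have : m + 1 - n = 0 := by omega
  simp only [zz, this, zaux]

theorem lt_of_lt (v : Vt) (t : List Bool) {m : ℕ} (h : m < t.length) : lt v t m = 0 := by
  simp only [lt, if_neg (not_le.2 h)]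

theorem lt_of_le (v : Vt) (t : List Bool) {m : ℕ} (h : t.length ≤ m) :
    lt v t m = Finsupp.single (v.1, res v.2 m, t) 1 := by
  simp only [lt, if_pos h]

theorem zz_rec_apply (x y : C) (n m : ℕ) : zz x y n m =
    zz x y (n + 1) m + zz x y (n + 1) m +
      (lt (false, x) (res y n) m + lt (true, y) (res x n) m) := by
  rcases lt_or_ge m n with h | h
  · rw [zz_of_lt x y h, zz_of_lt x y (h.trans (Nat.lt_succ_self n)),
      lt_of_lt _ _ (by rw [res_length]; exact h), lt_of_lt _ _ (by rw [res_length]; exact h)]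
    simp
  · have h1 : m + 1 - n = (m - n) + 1 := by omega
    have h2 : m + 1 - (n + 1) = m - n := by omega
    have h3 : m - (m - n) = n := by omega
    simp only [zz, h1, h2, zaux, h3]

theorem zz_rec (x y : C) (n : ℕ) : zz x y n =
    zz x y (n + 1) + zz x y (n + 1) + (lt (false, x) (res y n) + lt (true, y) (res x n)) := by
  funext m
  exact zz_rec_apply x y n m

/-- The generators with all ends in `S`. -/
def gens (R : Set (C × C)) (S : Set Vt) : Set Om :=
  {g | (∃ v t, v ∈ S ∧ g = lt v t) ∨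
    ∃ x y n, (x, y) ∈ R ∧ (false, x) ∈ S ∧ (true, y) ∈ S ∧ g = zz x y n}

/-- The subgroup attached to `S`. -/
noncomputable def GS (R : Set (C × C)) (S : Set Vt) : AddSubgroup Om := AddSubgroup.closure (gens R S)

theorem gens_mono (R : Set (C × C)) {S S' : Set Vt} (h : S ⊆ S') : gens R S ⊆ gens R S' := by
  rintro g (⟨v, t, hv, rfl⟩ | ⟨x, y, n, hR, hx, hy, rfl⟩)
  · exact Or.inl ⟨v, t, h hv, rfl⟩
  · exact Or.inr ⟨x, y, n, hR, h hx, h hy, rfl⟩

theorem GS_mono (R : Set (C × C)) {S S' : Set Vt} (h : S ⊆ S') : GS R S ≤ GS R S' :=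
  AddSubgroup.closure_mono (gens_mono R h)

/-- each element is in the subgroup of a finite set of vertices -/
theorem exists_finset (R : Set (C × C)) {S : Set Vt} {g : Om} (hg : g ∈ GS R S) :
    ∃ F : Finset Vt, g ∈ GS R F := by
  classical
  induction hg using AddSubgroup.closure_induction with
  | mem g hg =>
    rcases hg with ⟨v, t, _, rfl⟩ | ⟨x, y, n, hR, _, _, rfl⟩
    · exact ⟨{v}, AddSubgroup.subset_closure (Or.inl ⟨v, t, by simp, rfl⟩)⟩
    · exact ⟨{(false, x), (true, y)}, AddSubgroup.subset_closure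
        (Or.inr ⟨x, y, n, hR, by simp, by simp, rfl⟩)⟩
  | zero => exact ⟨∅, zero_mem _⟩
  | add a b _ _ iha ihb =>
    obtain ⟨F, h⟩ := iha
    obtain ⟨F', h'⟩ := ihb
    refine ⟨F ∪ F', add_mem (GS_mono R ?_ h) (GS_mono R ?_ h')⟩
    · simp only [Finset.coe_union]
      exact Set.subset_union_left
    · simp only [Finset.coe_union]
      exact Set.subset_union_right
  | neg a _ ih =>
    obtain ⟨F, h⟩ := ih
    exact ⟨F, neg_mem h⟩

theorem step_D4 (R : Set (C × C)) (n : ℕ) (H : AddSubgroup Om) (hH : H ≤ GS R Set.univ)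
    (hcard : #H ≤ ℵ_ n) : ∃ S : Set Vt, #S ≤ ℵ_ n ∧ H ≤ GS R S := by
  have h1 : ∀ g : H, ∃ F : Finset Vt, (g : Om) ∈ GS R F := fun g => exists_finset R (hH g.2)
  choose F hF using h1
  refine ⟨⋃ g : H, (F g : Set Vt), ?_, ?_⟩
  · refine (mk_iUnion_le _).trans ?_
    have h2 : (⨆ g : H, #(F g : Set Vt)) ≤ ℵ₀ := by
      refine ciSup_le' fun g => ?_
      exact (Finset.countable_toSet (F g)).le_aleph0
    calc #H * (⨆ g : H, #(F g : Set Vt)) ≤ ℵ_ n * ℵ_ n :=
          mul_le_mul' hcard (h2.trans (aleph0_le_aleph _))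
      _ = ℵ_ n := mul_eq_self (aleph0_le_aleph _)
  · intro g hg
    exact GS_mono R (Set.subset_iUnion (fun g : H => (F g : Set Vt)) ⟨g, hg⟩) (hF ⟨g, hg⟩)

end Pool.Agent.Helper636_AG.AbD
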