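import Pool.Agent.H409_AG.PartD1
import Pool.Agent.H409_AG.PartD0
import Pool.Agent.H409_AG.PartD2
import Pool.Agent.H409_AG.PartD3b
import Pool.Agent.H409_AG.PartD4
import Pool.Agent.H409_AG.PartD_Asm

/-!
# The group of Part D has a Borel multiplication
-/

set_option autoImplicit false

namespace Pool.Agent.Helper636_AG

open Cardinal PiNat Topology Pool.Agent.H409_AG Pool.Agent.H409_AG.PD

/-- The graph of the multiplication of `G` is a Borel subset of `ℝ × ℝ × ℝ`. -/
def IsBorelGroup (G : Group ℝ) : Prop :=
  MeasurableSet {p : ℝ × ℝ × ℝ | G.mul p.1 p.2.1 = p.2.2}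

local instance instTop : TopologicalSpace (FreeGroup Sym) := ⊥

local instance instDisc : DiscreteTopology (FreeGroup Sym) := ⟨rfl⟩

local instance instCount : Countable (FreeGroup Sym) := countable_freeGroup

local instance instMeas : MeasurableSpace (FreeGroup Sym) := borel _

local instance instBor : BorelSpace (FreeGroup Sym) := ⟨rfl⟩

theorem borel_D1 (R : Set (C × C)) (hR : IsCompact R) :
    ∃ (G : Group ℝ) (e : ℝ ≃ GS R Set.univ), IsBorelGroup G ∧
      ∀ a b, e (G.mul a b) = e a * e b := by
  have hmeas : MeasurableSet (GS R Set.univ : Set Om) := GS_measurable hR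
  have : StandardBorelSpace (GS R Set.univ) := hmeas.standardBorel
  have hun : ¬ Countable ℝ := by
    rw [not_countable_iff]
    infer_instance
  let e : ℝ ≃ᵐ GS R Set.univ := PolishSpace.measurableEquivOfNotCountable hun (not_countable_GS R)
  refine ⟨e.toEquiv.group, e.toEquiv, ?_, ?_⟩
  · have h1 : {p : ℝ × ℝ × ℝ | (e.toEquiv.group).mul p.1 p.2.1 = p.2.2} =
        (fun p : ℝ × ℝ × ℝ => (((e p.1 : GS R Set.univ) : Om) * (e p.2.1 : GS R Set.univ),
          ((e p.2.2 : GS R Set.univ) : Om))) ⁻¹' {q : Om × Om | q.1 = q.2} := by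
      ext p
      have h2 : (e.toEquiv.group).mul p.1 p.2.1 = e.symm (e p.1 * e p.2.1) := rfl
      simp only [Set.mem_ofPred_eq, Set.mem_preimage]
      rw [h2]
      constructor
      · intro h
        rw [← h, MeasurableEquiv.apply_symm_apply]
        rfl
      · intro h
        have h3 : e p.1 * e p.2.1 = e p.2.2 := Subtype.ext h
        rw [h3, MeasurableEquiv.symm_apply_apply]
    rw [IsBorelGroup, h1]
    have hv : Measurable fun r : ℝ => ((e r : GS R Set.univ) : Om) :=
      measurable_subtype_coe.comp e.measurable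
    have h4 : Measurable fun p : ℝ × ℝ × ℝ =>
        (((e p.1 : GS R Set.univ) : Om) * (e p.2.1 : GS R Set.univ),
          ((e p.2.2 : GS R Set.univ) : Om)) := by
      refine Measurable.prodMk ?_ (hv.comp (measurable_snd.comp measurable_snd))
      exact (hv.comp measurable_fst).mul (hv.comp (measurable_fst.comp measurable_snd))
    exact h4 (isClosed_diagonal.measurableSet)
  · intro a b
    have h2 : (e.toEquiv.group).mul a b = e.symm (e a * e b) := rfl
    rw [h2]
    exact e.apply_symm_apply _

/-- If there is an incompact closed graph then some group with underlying set `ℝ` and a Borel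
multiplication is `ℵ_ω`-free but not free. -/
theorem borel_group_of_incompact (h : Incompact) : ∃ G : Group ℝ, IsBorelGroup G ∧
    IsKappaFree (ℵ_ Ordinal.omega0) G ∧ ¬ IsFreeGroup ℝ := by
  obtain ⟨R, hR⟩ := step_D0 h
  obtain ⟨G, e, hG, he⟩ := borel_D1 R hR.1
  have := @asm_aux ℝ G R (@MulEquiv.mk ℝ (GS R Set.univ) G.toMul _ e he) hR step_D2 step_D3 step_D4
  exact ⟨G, hG, this.1, this.2⟩

end Pool.Agent.Helper636_AG
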