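import Mathlib

/-!
# Abelian groups on the real line whose operation has an F-sigma graph

We show that such a group always has a non-zero element which is divisible by all powers of 2
(in a compatible way); in particular it has a countable subgroup which is not free.
-/

open Set Topology

namespace Pool.Agent.Helper636_AG.Fs

/-- A function with compact graph over `D` is continuous on `D`. -/
theorem continuousOn_of_graph {X Y : Type} [TopologicalSpace X] [T2Space X]
    [TopologicalSpace Y] [T2Space Y] (f : X → Y) (D : Set X)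
    (h : IsCompact {p : X × Y | p.1 ∈ D ∧ f p.1 = p.2}) : ContinuousOn f D := by
  rw [continuousOn_iff_isClosed]
  intro t ht
  refine ⟨Prod.fst '' ({p : X × Y | p.1 ∈ D ∧ f p.1 = p.2} ∩ (Prod.snd ⁻¹' t)), ?_, ?_⟩
  · apply IsCompact.isClosed
    apply IsCompact.image _ continuous_fst
    exact h.inter_right (ht.preimage continuous_snd)
  · ext x
    simp only [mem_inter_iff, mem_preimage, mem_image, mem_ofPred_eq, Prod.exists,
      exists_and_right, exists_eq_right]
    constructor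
    · rintro ⟨h1, h2⟩
      exact ⟨⟨f x, ⟨h2, rfl⟩, h1⟩, h2⟩
    · rintro ⟨⟨y, ⟨h1, h2⟩, h3⟩, _⟩
      exact ⟨by rw [h2]; exact h3, h1⟩

/-- The image of an interval around `x0` under a continuous injection contains an interval around
the image of `x0`. -/
theorem local_image (f : ℝ → ℝ) (a b x0 : ℝ) (h0 : x0 ∈ Ioo a b)
    (hc : ContinuousOn f (Icc a b)) (hi : InjOn f (Icc a b)) :
    ∃ δ > 0, Ioo (f x0 - δ) (f x0 + δ) ⊆ f '' Icc a b := by
  have hab : a ≤ b := (h0.1.trans h0.2).le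
  have ha : a ∈ Icc a b := left_mem_Icc.2 hab
  have hb : b ∈ Icc a b := right_mem_Icc.2 hab
  have hx : x0 ∈ Icc a b := Ioo_subset_Icc_self h0
  rcases ContinuousOn.strictMonoOn_of_injOn_Icc' hab hc hi with hm | hm
  · have h1 : f a < f x0 := hm ha hx h0.1
    have h2 : f x0 < f b := hm hx hb h0.2
    refine ⟨min (f x0 - f a) (f b - f x0), lt_min (by linarith) (by linarith), ?_⟩
    intro y hy
    apply intermediate_value_Icc hab hc
    have h3 := min_le_left (f x0 - f a) (f b - f x0)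
    have h4 := min_le_right (f x0 - f a) (f b - f x0)
    exact ⟨by linarith [hy.1], by linarith [hy.2]⟩
  · have h1 : f x0 < f a := hm ha hx h0.1
    have h2 : f b < f x0 := hm hx hb h0.2
    refine ⟨min (f a - f x0) (f x0 - f b), lt_min (by linarith) (by linarith), ?_⟩
    intro y hy
    apply intermediate_value_Icc' hab hc
    have h3 := min_le_left (f a - f x0) (f x0 - f b)
    have h4 := min_le_right (f a - f x0) (f x0 - f b)
    exact ⟨by linarith [hy.1], by linarith [hy.2]⟩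

section
variable {X : Type} [AddCommGroup X] (e : ℝ ≃ X)

/-- The transported operation. -/
noncomputable def op (x y : ℝ) : ℝ := e.symm (e x + e y)

theorem e_op (x y : ℝ) : e (op e x y) = e x + e y := by simp [op]

/-- Some restriction of the operation to an open rectangle is continuous. -/
theorem exists_rect (K : ℕ → Set (ℝ × ℝ × ℝ)) (hK : ∀ n, IsCompact (K n))
    (hg : {q : ℝ × ℝ × ℝ | e q.1 + e q.2.1 = e q.2.2} = ⋃ n, K n) :
    ∃ x0 y0 ε : ℝ, 0 < ε ∧ ContinuousOn (fun q : ℝ × ℝ => op e q.1 q.2)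
      (Icc (x0 - ε) (x0 + ε) ×ˢ Icc (y0 - ε) (y0 + ε)) := by
  let pr : ℝ × ℝ × ℝ → ℝ × ℝ := fun q => (q.1, q.2.1)
  have hpr : Continuous pr := by fun_prop
  let D : ℕ → Set (ℝ × ℝ) := fun n => pr '' K n
  have hD : ∀ n, IsClosed (D n) := fun n => ((hK n).image hpr).isClosed
  have hU : ⋃ n, D n = univ := by
    rw [eq_univ_iff_forall]
    rintro ⟨x, y⟩
    have h1 : (x, y, op e x y) ∈ {q : ℝ × ℝ × ℝ | e q.1 + e q.2.1 = e q.2.2} := by
      simp [e_op]
    rw [hg] at h1
    obtain ⟨n, hn⟩ := mem_iUnion.1 h1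
    exact mem_iUnion.2 ⟨n, _, hn, rfl⟩
  obtain ⟨n, ⟨x0, y0⟩, hn⟩ := nonempty_interior_of_iUnion_of_closed hD hU
  have hcont : ContinuousOn (fun q : ℝ × ℝ => op e q.1 q.2) (D n) := by
    apply continuousOn_of_graph
    have h2 : {p : (ℝ × ℝ) × ℝ | p.1 ∈ D n ∧ op e p.1.1 p.1.2 = p.2}
        = (fun q : ℝ × ℝ × ℝ => ((q.1, q.2.1), q.2.2)) '' K n := by
      ext ⟨⟨x, y⟩, z⟩
      simp only [D, pr, mem_ofPred_eq, mem_image, Prod.mk.injEq, Prod.exists]
      constructor
      · rintro ⟨⟨a, b, c, h1, rfl, rfl⟩, h3⟩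
        have h4 : (a, b, c) ∈ {q : ℝ × ℝ × ℝ | e q.1 + e q.2.1 = e q.2.2} := by
          rw [hg]; exact mem_iUnion.2 ⟨n, h1⟩
        have h5 : c = z := by
          rw [← h3]
          apply e.injective
          rw [e_op]
          exact h4.symm
        subst h5
        exact ⟨a, b, c, h1, ⟨rfl, rfl⟩, rfl⟩
      · rintro ⟨a, b, c, h1, ⟨rfl, rfl⟩, rfl⟩
        have h4 : (a, b, c) ∈ {q : ℝ × ℝ × ℝ | e q.1 + e q.2.1 = e q.2.2} := by
          rw [hg]; exact mem_iUnion.2 ⟨n, h1⟩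
        refine ⟨⟨a, b, c, h1, rfl, rfl⟩, ?_⟩
        apply e.injective
        rw [e_op]
        exact h4
    rw [h2]
    exact (hK n).image (by fun_prop)
  rw [mem_interior_iff_mem_nhds, Metric.mem_nhds_iff] at hn
  obtain ⟨ε, hε, hb⟩ := hn
  refine ⟨x0, y0, ε / 2, by linarith, hcont.mono ?_⟩
  intro q hq
  apply hb
  rw [mem_prod, ← Real.closedBall_eq_Icc, ← Real.closedBall_eq_Icc] at hq
  rw [Metric.mem_ball, Prod.dist_eq, max_lt_iff]
  have h1 := hq.1
  have h2 := hq.2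
  rw [Metric.mem_closedBall] at h1 h2
  exact ⟨by dsimp only; linarith, by dsimp only; linarith⟩

/-- Local inverse of a translation. -/
theorem exists_inv (g : ℝ → ℝ) (x0 ε : ℝ) (hε : 0 < ε)
    (hc : ContinuousOn g (Icc (x0 - ε) (x0 + ε))) (ginv : ℝ → ℝ)
    (hl : ∀ x, ginv (g x) = x) :
    ∃ δ > 0, ContinuousOn ginv (Ioo (g x0 - δ) (g x0 + δ)) ∧
      ∀ s ∈ Ioo (g x0 - δ) (g x0 + δ), ginv s ∈ Icc (x0 - ε) (x0 + ε) := by
  have hi : Function.Injective g := Function.LeftInverse.injective hl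
  obtain ⟨δ, hδ, hs⟩ := local_image g (x0 - ε) (x0 + ε) x0 ⟨by linarith, by linarith⟩ hc
    hi.injOn
  refine ⟨δ, hδ, ?_, ?_⟩
  · apply ContinuousOn.mono _ hs
    apply continuousOn_of_graph
    have h2 : {p : ℝ × ℝ | p.1 ∈ g '' Icc (x0 - ε) (x0 + ε) ∧ ginv p.1 = p.2}
        = (fun x => (g x, x)) '' Icc (x0 - ε) (x0 + ε) := by
      ext ⟨s, x⟩
      simp only [mem_ofPred_eq, mem_image, Prod.mk.injEq]
      constructor
      · rintro ⟨⟨y, hy, rfl⟩, h⟩
        rw [hl] at h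
        exact ⟨y, hy, rfl, h⟩
      · rintro ⟨y, hy, rfl, rfl⟩
        exact ⟨⟨y, hy, rfl⟩, hl y⟩
    rw [h2]
    exact isCompact_Icc.image_of_continuousOn (hc.prodMk continuousOn_id)
  · intro s hs1
    obtain ⟨y, hy, rfl⟩ := hs hs1
    rw [hl]; exact hy

/-- The main lemma: a point `p` and a neighbourhood of it on which `s + t - p` is continuous. -/
theorem exists_nbhd (K : ℕ → Set (ℝ × ℝ × ℝ)) (hK : ∀ n, IsCompact (K n))
    (hg : {q : ℝ × ℝ × ℝ | e q.1 + e q.2.1 = e q.2.2} = ⋃ n, K n) :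
    ∃ p δ : ℝ, 0 < δ ∧ ContinuousOn (fun q : ℝ × ℝ => e.symm (e q.1 + e q.2 - e p))
      (Ioo (p - δ) (p + δ) ×ˢ Ioo (p - δ) (p + δ)) := by
  obtain ⟨x0, y0, ε, hε, hc⟩ := exists_rect e K hK hg
  have hx0 : x0 ∈ Icc (x0 - ε) (x0 + ε) := ⟨by linarith, by linarith⟩
  have hy0 : y0 ∈ Icc (y0 - ε) (y0 + ε) := ⟨by linarith, by linarith⟩
  have hc1 : ContinuousOn (fun x => op e x y0) (Icc (x0 - ε) (x0 + ε)) := by
    have : ContinuousOn (fun x : ℝ => (x, y0)) (Icc (x0 - ε) (x0 + ε)) := by fun_prop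
    exact hc.comp this (fun x hx => ⟨hx, hy0⟩)
  have hc2 : ContinuousOn (fun y => op e x0 y) (Icc (y0 - ε) (y0 + ε)) := by
    have : ContinuousOn (fun y : ℝ => (x0, y)) (Icc (y0 - ε) (y0 + ε)) := by fun_prop
    exact hc.comp this (fun y hy => ⟨hx0, hy⟩)
  obtain ⟨δ1, hδ1, hi1, hm1⟩ := exists_inv (fun x => op e x y0) x0 ε hε hc1
    (fun s => e.symm (e s - e y0)) (fun x => by simp [op])
  obtain ⟨δ2, hδ2, hi2, hm2⟩ := exists_inv (fun y => op e x0 y) y0 ε hε hc2
    (fun s => e.symm (e s - e x0)) (fun x => by simp [op])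
  refine ⟨op e x0 y0, min δ1 δ2, lt_min hδ1 hδ2, ?_⟩
  have hs1 : Ioo (op e x0 y0 - min δ1 δ2) (op e x0 y0 + min δ1 δ2) ⊆
      Ioo (op e x0 y0 - δ1) (op e x0 y0 + δ1) := by
    apply Ioo_subset_Ioo <;> linarith [min_le_left δ1 δ2]
  have hs2 : Ioo (op e x0 y0 - min δ1 δ2) (op e x0 y0 + min δ1 δ2) ⊆
      Ioo (op e x0 y0 - δ2) (op e x0 y0 + δ2) := by
    apply Ioo_subset_Ioo <;> linarith [min_le_right δ1 δ2]
  have h3 : ContinuousOn (fun q : ℝ × ℝ => ((e.symm (e q.1 - e y0), e.symm (e q.2 - e x0)) : ℝ × ℝ))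
      (Ioo (op e x0 y0 - min δ1 δ2) (op e x0 y0 + min δ1 δ2) ×ˢ
        Ioo (op e x0 y0 - min δ1 δ2) (op e x0 y0 + min δ1 δ2)) := by
    apply ContinuousOn.prodMk
    · exact hi1.comp continuousOn_fst (fun q hq => hs1 hq.1)
    · exact hi2.comp continuousOn_snd (fun q hq => hs2 hq.2)
  have h4 := hc.comp h3 (fun q hq => ⟨hm1 _ (hs1 hq.1), hm2 _ (hs2 hq.2)⟩)
  refine h4.congr ?_
  rintro ⟨s, t⟩ _
  simp only [Function.comp, op, Equiv.apply_symm_apply]
  congr 1
  abel

/-- A non-zero element which is divisible by all powers of 2. -/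
theorem exists_divisible (K : ℕ → Set (ℝ × ℝ × ℝ)) (hK : ∀ n, IsCompact (K n))
    (hg : {q : ℝ × ℝ × ℝ | e q.1 + e q.2.1 = e q.2.2} = ⋃ n, K n) :
    ∃ a : ℕ → X, a 0 ≠ 0 ∧ ∀ n, a n = a (n + 1) + a (n + 1) := by
  obtain ⟨p, δ, hδ, hc⟩ := exists_nbhd e K hK hg
  set N := Ioo (p - δ) (p + δ) with hN
  let m : ℝ → ℝ → ℝ := fun s t => e.symm (e s + e t - e p)
  have hcm : ContinuousOn (fun q : ℝ × ℝ => m q.1 q.2) (N ×ˢ N) := hc
  have hpN : p ∈ N := ⟨by linarith, by linarith⟩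
  have hmp : ∀ t, m p t = t := fun t => by simp [m]
  have hmp' : ∀ t, m t p = t := fun t => by simp [m]
  have hinj : ∀ s t1 t2, m s t1 = m s t2 → t1 = t2 := by
    intro s t1 t2 h
    have h1 := e.symm.injective h
    apply e.injective
    have h2 : e s + e t1 - e p + e p - e s = e s + e t2 - e p + e p - e s := by rw [h1]
    simpa using h2
  have hmono : ∀ s ∈ N, ∀ t1 ∈ N, ∀ t2 ∈ N, t1 < t2 → m s t1 < m s t2 := by
    intro s hs t1 ht1 t2 ht2 hlt
    by_contra hcon
    have hne : m s t1 ≠ m s t2 := fun h => hlt.ne (hinj s t1 t2 h)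
    have hlt' : m s t2 < m s t1 := lt_of_le_of_ne (not_lt.1 hcon) hne.symm
    have hpc : IsPreconnected N := isPreconnected_Ioo
    have hf : ContinuousOn (fun s => m s t2 - m s t1) N := by
      apply ContinuousOn.sub
      · have : ContinuousOn (fun s : ℝ => (s, t2)) N := by fun_prop
        exact hcm.comp this (fun x hx => ⟨hx, ht2⟩)
      · have : ContinuousOn (fun s : ℝ => (s, t1)) N := by fun_prop
        exact hcm.comp this (fun x hx => ⟨hx, ht1⟩)
    have h0 : (0 : ℝ) ∈ Icc (m s t2 - m s t1) (m p t2 - m p t1) :=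
      ⟨by linarith, by rw [hmp, hmp]; linarith⟩
    obtain ⟨r, hr, hr0⟩ := hpc.intermediate_value hs hpN hf h0
    have h5 : m r t2 = m r t1 := by simpa [sub_eq_zero] using hr0
    exact hlt.ne (hinj r t2 t1 h5).symm
  have hq : ∀ s ∈ N, p < s → s < m s s := by
    intro s hs hps
    have := hmono s hs p hpN s hs hps
    rwa [hmp'] at this
  set s0 : ℝ := p + δ / 2 with hs0
  have hs0N : ∀ s ∈ Icc p s0, s ∈ N := by
    intro s hs
    exact ⟨by linarith [hs.1], by have := hs.2; linarith⟩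
  have hps0 : p < s0 := by linarith
  have hcq : ContinuousOn (fun s => m s s) (Icc p s0) := by
    have : ContinuousOn (fun s : ℝ => (s, s)) (Icc p s0) := by fun_prop
    exact hcm.comp this (fun x hx => ⟨hs0N x hx, hs0N x hx⟩)
  have hnext : ∀ t : Ioc p s0, ∃ s : Ioc p s0, m s s = t := by
    rintro ⟨t, ht⟩
    have h1 : t ∈ Icc (m p p) (m s0 s0) := by
      refine ⟨by rw [hmp]; exact ht.1.le, ?_⟩
      exact (ht.2.trans_lt (hq s0 (hs0N s0 (right_mem_Icc.2 hps0.le)) hps0)).le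
    obtain ⟨s, hs, hst⟩ := intermediate_value_Icc hps0.le hcq h1
    have hsp : p < s := by
      rcases hs.1.lt_or_eq with h | h
      · exact h
      · exfalso
        have h3 : m s s = t := hst
        rw [← h, hmp] at h3
        exact ht.1.ne h3
    exact ⟨⟨s, hsp, hs.2⟩, hst⟩
  choose nxt hnxt using hnext
  let t : ℕ → Ioc p s0 := fun n => Nat.rec ⟨s0, hps0, le_rfl⟩ (fun _ x => nxt x) n
  have ht : ∀ n, t (n + 1) = nxt (t n) := fun n => rfl
  refine ⟨fun n => e (t n).1 - e p, ?_, ?_⟩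
  · intro h
    have h1 : e (t 0).1 = e p := sub_eq_zero.1 h
    have h2 : (t 0).1 = p := e.injective h1
    have h3 : (t 0).1 = s0 := rfl
    rw [h3] at h2
    exact hps0.ne h2.symm
  · intro n
    have h1 := hnxt (t n)
    rw [← ht n] at h1
    have h2 : e (t n).1 = e (t (n+1)).1 + e (t (n+1)).1 - e p := by
      rw [← h1]; simp [m]
    dsimp only
    rw [h2]
    abel

end

/-- A free abelian group has no non-zero sequence of successive halves. -/
theorem not_free_of_divisible {X : Type} [AddCommGroup X] (a : ℕ → X) (h0 : a 0 ≠ 0)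
    (ha : ∀ n, a n = a (n + 1) + a (n + 1)) :
    ∃ H : AddSubgroup X, Countable H ∧ ¬ Module.Free ℤ H := by
  let φ : (ℕ →₀ ℤ) →+ X := (Finsupp.linearCombination ℤ a).toAddMonoidHom
  have hφ : ∀ n, a n ∈ φ.range := fun n => ⟨Finsupp.single n 1, by simp [φ]⟩
  refine ⟨φ.range, ?_, ?_⟩
  · exact Function.Surjective.countable (f := φ.rangeRestrict) φ.rangeRestrict_surjective
  · intro hfree
    let b := Module.Free.chooseBasis ℤ φ.range
    let c : ℕ → φ.range := fun n => ⟨a n, hφ n⟩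
    have hc : ∀ n, c n = c (n + 1) + c (n + 1) := fun n => Subtype.ext (ha n)
    have hc0 : c 0 ≠ 0 := fun h => h0 (congrArg Subtype.val h)
    have h1 : ∃ i, b.repr (c 0) i ≠ 0 := by
      by_contra hcon
      push Not at hcon
      apply hc0
      apply b.repr.injective
      ext i
      simpa using hcon i
    obtain ⟨i, hi⟩ := h1
    have h2 : ∀ n, b.repr (c 0) i = 2 ^ n * b.repr (c n) i := by
      intro n
      induction n with
      | zero => simp
      | succ n ih =>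
        rw [ih, hc n, map_add, Finsupp.add_apply]
        ring
    have h3 : ∀ n : ℕ, (2 : ℤ) ^ n ∣ b.repr (c 0) i := fun n => ⟨_, h2 n⟩
    have h4 := Int.le_of_dvd (abs_pos.2 hi) ((dvd_abs _ _).2 (h3 (b.repr (c 0) i).natAbs))
    have h5 : ((b.repr (c 0) i).natAbs : ℤ) < 2 ^ (b.repr (c 0) i).natAbs := by
      exact_mod_cast Nat.lt_two_pow_self
    rw [Int.natCast_natAbs] at h5
    linarith

end Pool.Agent.Helper636_AG.Fs
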